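import Pool.Agent.H979R3.Aff

set_option autoImplicit false
set_option linter.unusedSectionVars false

namespace Pool.Agent.H979R3

open MN

namespace Brachy

/-- words in two letters -/
abbrev W : Type := FreeMonoid (Fin 2)

/-- the letters in the group -/
def letter (z : Fin 2) : Aff := ⟨1, (z.val : ℚ)⟩

/-- the embedding of words -/
def wd : W →* Aff := FreeMonoid.lift letter

theorem wd_of_mul (z : Fin 2) (w : W) : wd (FreeMonoid.of z * w) = letter z * wd w := by
  rw [map_mul, wd, FreeMonoid.lift_eval_of]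

theorem wd_one : wd 1 = 1 := map_one _

/-- binary value of a word -/
theorem wd_nat (w : W) : ∃ k : ℕ, (wd w).a = (k : ℚ) := by
  induction w using FreeMonoid.recOn with
  | one => exact ⟨0, by rw [wd_one]; simp⟩
  | of_mul z w ih =>
    obtain ⟨k, hk⟩ := ih
    refine ⟨z.val + 2 * k, ?_⟩
    rw [wd_of_mul, Aff.mul_a, hk]
    simp [letter]

theorem wd_len (w : W) : 0 ≤ (wd w).n := by
  induction w using FreeMonoid.recOn with
  | one => rw [wd_one]; simp
  | of_mul z w ih =>
    rw [wd_of_mul, Aff.mul_n]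
    simp only [letter]
    omega

theorem wd_inj : Function.Injective wd := by
  intro v
  induction v using FreeMonoid.recOn with
  | one =>
    intro w h
    induction w using FreeMonoid.recOn with
    | one => rfl
    | of_mul z w _ =>
      exfalso
      rw [wd_of_mul, wd_one] at h
      have h1 := congrArg Aff.n h
      have h2 := wd_len w
      simp only [Aff.mul_n, Aff.one_n, letter] at h1
      omega
  | of_mul y v ihv =>
    intro w h
    induction w using FreeMonoid.recOn with
    | one =>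
      exfalso
      rw [wd_of_mul, wd_one] at h
      have h1 := congrArg Aff.n h
      have h2 := wd_len v
      simp only [Aff.mul_n, Aff.one_n, letter] at h1
      omega
    | of_mul z w _ =>
      rw [wd_of_mul, wd_of_mul] at h
      have h1 := congrArg Aff.n h
      have h2 := congrArg Aff.a h
      obtain ⟨k, hk⟩ := wd_nat v
      obtain ⟨l, hl⟩ := wd_nat w
      simp only [Aff.mul_n, letter] at h1
      simp only [Aff.mul_a, letter, hk, hl, zpow_one] at h2
      have h3 : y.val + 2 * k = z.val + 2 * l := by exact_mod_cast h2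
      have h4 : y = z := by
        apply Fin.ext
        omega
      subst h4
      have h5 : k = l := by omega
      have : wd v = wd w := by
        apply Aff.ext
        · omega
        · rw [hk, hl, h5]
      rw [ihv this]

/-- monomials as a monoid homomorphism -/
noncomputable def mon : Aff →* KK where
  toFun g := single g 1
  map_one' := rfl
  map_mul' g h := by rw [single_mul_single, mul_one]

/-- the free ring on two generators -/
abbrev R0 : Type := MonoidAlgebra ℤ W

/-- augmentation -/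
noncomputable def eps : R0 →ₐ[ℤ] ℤ := MonoidAlgebra.lift ℤ ℤ W (FreeMonoid.lift fun _ => 0)

/-- embedding in the division ring -/
noncomputable def del : R0 →ₐ[ℤ] KK := MonoidAlgebra.lift ℤ KK W (mon.comp wd)

/-- generators of the triangular representation -/
noncomputable def gen (z : Fin 2) : Matrix (Fin 3) (Fin 3) KK :=
  if z = 0 then !![0, 0, 0; 0, single (letter 0) 1, 1; 0, 0, 0]
  else !![0, 1, 0; 0, single (letter 1) 1, 0; 0, 0, 0]

/-- the triangular representation on words -/
noncomputable def genW : W →* Matrix (Fin 3) (Fin 3) KK := FreeMonoid.lift gen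

/-- the triangular representation -/
noncomputable def rho : R0 →ₐ[ℤ] Matrix (Fin 3) (Fin 3) KK := MonoidAlgebra.lift ℤ _ W genW

theorem genW_of_mul (z : Fin 2) (w : W) : genW (FreeMonoid.of z * w) = gen z * genW w := by
  rw [map_mul, genW, FreeMonoid.lift_eval_of]

theorem genW_shape (w : W) : genW w 1 0 = 0 ∧ genW w 2 0 = 0 ∧ genW w 2 1 = 0 ∧
    genW w 0 0 = ((FreeMonoid.lift (fun _ => (0 : ℤ)) w : ℤ) : KK) ∧
    genW w 2 2 = ((FreeMonoid.lift (fun _ => (0 : ℤ)) w : ℤ) : KK) ∧
    genW w 1 1 = mon (wd w) := by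
  induction w using FreeMonoid.recOn with
  | one => simp
  | of_mul z w ih =>
    obtain ⟨h1, h2, h3, h4, h5, h6⟩ := ih
    rw [genW_of_mul, wd_of_mul, map_mul, map_mul, FreeMonoid.lift_eval_of]
    fin_cases z
    · simp [gen, Matrix.mul_apply, Fin.sum_univ_three, h1, h2, h3, h4, h5, h6, mon]
    · simp [gen, Matrix.mul_apply, Fin.sum_univ_three, h1, h2, h3, h4, h5, h6, mon]

theorem rho_single (w : W) (r : ℤ) : rho (MonoidAlgebra.single w r) = r • genW w := by
  rw [rho, MonoidAlgebra.lift_single]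

theorem del_single (w : W) (r : ℤ) : del (MonoidAlgebra.single w r) = r • mon (wd w) := by
  rw [del, MonoidAlgebra.lift_single]; rfl

theorem eps_single (w : W) (r : ℤ) : eps (MonoidAlgebra.single w r) =
    r • (FreeMonoid.lift (fun _ => (0 : ℤ)) w) := by
  rw [eps, MonoidAlgebra.lift_single]

theorem rho_shape (a : R0) : rho a 1 0 = 0 ∧ rho a 2 0 = 0 ∧ rho a 2 1 = 0 ∧
    rho a 0 0 = ((eps a : ℤ) : KK) ∧ rho a 2 2 = ((eps a : ℤ) : KK) ∧ rho a 1 1 = del a := by
  induction a using MonoidAlgebra.induction_linear with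
  | zero => simp
  | add x y hx hy =>
    obtain ⟨h1, h2, h3, h4, h5, h6⟩ := hx
    obtain ⟨k1, k2, k3, k4, k5, k6⟩ := hy
    simp only [map_add, Matrix.add_apply, h1, h2, h3, h4, h5, h6, k1, k2, k3, k4, k5, k6]
    refine ⟨by simp, by simp, by simp, by push_cast; rfl, by push_cast; rfl, trivial⟩
  | single w r =>
    obtain ⟨h1, h2, h3, h4, h5, h6⟩ := genW_shape w
    rw [rho_single, del_single, eps_single]
    simp only [Matrix.smul_apply, h1, h2, h3, h4, h5, h6]
    refine ⟨by simp, by simp, by simp, by simp, by simp, trivial⟩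

/-- left derivative with respect to the second letter -/
noncomputable def D (a : R0) : KK := rho a 0 1
/-- right derivative with respect to the first letter -/
noncomputable def D' (a : R0) : KK := rho a 1 2
/-- double derivative -/
noncomputable def T (a : R0) : KK := rho a 0 2

theorem D_mul (a b : R0) : D (a * b) = ((eps a : ℤ) : KK) * D b + D a * del b := by
  obtain ⟨h1, h2, h3, h4, h5, h6⟩ := rho_shape a
  obtain ⟨k1, k2, k3, k4, k5, k6⟩ := rho_shape b
  simp only [D, map_mul, Matrix.mul_apply, Fin.sum_univ_three, h4, k3, k6, mul_zero, add_zero]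

theorem D'_mul (a b : R0) : D' (a * b) = del a * D' b + D' a * ((eps b : ℤ) : KK) := by
  obtain ⟨h1, h2, h3, h4, h5, h6⟩ := rho_shape a
  obtain ⟨k1, k2, k3, k4, k5, k6⟩ := rho_shape b
  simp only [D', map_mul, Matrix.mul_apply, Fin.sum_univ_three, h1, h6, k5, zero_mul, zero_add]

theorem T_mul (a b : R0) : T (a * b) = ((eps a : ℤ) : KK) * T b + D a * D' b +
    T a * ((eps b : ℤ) : KK) := by
  obtain ⟨h1, h2, h3, h4, h5, h6⟩ := rho_shape a
  obtain ⟨k1, k2, k3, k4, k5, k6⟩ := rho_shape b
  simp only [T, D, D', map_mul, Matrix.mul_apply, Fin.sum_univ_three, h4, k5]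

theorem D_one : D 1 = 0 := by simp [D]
theorem D'_one : D' 1 = 0 := by simp [D']
theorem T_one : T 1 = 0 := by simp [T]
theorem D_add (a b : R0) : D (a + b) = D a + D b := by simp [D]
theorem D'_add (a b : R0) : D' (a + b) = D' a + D' b := by simp [D']
theorem T_add (a b : R0) : T (a + b) = T a + T b := by simp [T]

/-- degrees on words -/
theorem word_le (w : W) : KK.Le ((wd w).n - 1) (genW w 0 1) ∧ KK.Le ((wd w).n - 1) (genW w 1 2) := by
  induction w using FreeMonoid.recOn with
  | one =>
    constructor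
    · simpa using KK.Le.zero _
    · simpa using KK.Le.zero _
  | of_mul z w ih =>
    obtain ⟨h1, h2, h3, h4, h5, h6⟩ := genW_shape w
    have hlen := wd_len w
    have hz : ∀ z : Fin 2, gen z 0 0 = 0 ∧ gen z 0 2 = 0 ∧ gen z 1 0 = 0 ∧
        KK.Le 0 (gen z 0 1) ∧ KK.Le 1 (gen z 1 1) ∧ KK.Le 0 (gen z 1 2) := by
      intro z
      fin_cases z
      · refine ⟨by simp [gen], by simp [gen], by simp [gen], ?_, ?_, ?_⟩
        · simpa [gen] using KK.Le.zero _
        · have := KK.Le.single (letter 0) 1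
          rw [show (letter 0).n = 1 from rfl] at this
          simpa [gen] using this
        · simpa [gen] using KK.Le.one
      · refine ⟨by simp [gen], by simp [gen], by simp [gen], ?_, ?_, ?_⟩
        · simpa [gen] using KK.Le.one
        · have := KK.Le.single (letter 1) 1
          rw [show (letter 1).n = 1 from rfl] at this
          simpa [gen] using this
        · simpa [gen] using KK.Le.zero _
    obtain ⟨g1, g2, g3, g4, g5, g6⟩ := hz z
    have hn : (wd (FreeMonoid.of z * w)).n - 1 = (wd w).n := by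
      rw [wd_of_mul, Aff.mul_n]; simp only [letter]; ring
    rw [hn, genW_of_mul]
    constructor
    · simp only [Matrix.mul_apply, Fin.sum_univ_three, g1, g2, zero_mul, zero_add, add_zero, h6]
      have := g4.mul (KK.Le.single (wd w) 1)
      rw [zero_add] at this
      exact this
    · simp only [Matrix.mul_apply, Fin.sum_univ_three, g3, zero_mul, zero_add, h5]
      refine KK.Le.add ?_ ?_
      · have := g5.mul ih.2
        exact this.mono (by omega)
      · have := g6.mul (KK.Le.intCast (FreeMonoid.lift (fun _ => (0 : ℤ)) w))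
        exact this.mono (by omega)

theorem rho_sum (a : R0) : rho a = ∑ w ∈ a.coeff.support, a.coeff w • genW w := by
  conv_lhs => rw [← MonoidAlgebra.sum_coeff_single a]
  rw [Finsupp.sum, map_sum]
  exact Finset.sum_congr rfl fun w _ => rho_single w _

theorem del_coeff (a : R0) (w : W) : (del a).c (wd w) = a.coeff w := by
  induction a using MonoidAlgebra.induction_linear with
  | zero => simp
  | add x y hx hy => rw [map_add, add_c, hx, hy]; simp
  | single v r =>
    rw [del_single, KK.zsmul_c]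
    change (r : ℚ) * (single (wd v) 1).c (wd w) = _
    by_cases h : v = w
    · subst h
      simp
    · rw [single_ne _ _ _ (fun h' => h (wd_inj h').symm)]
      simp [h]

/-- the key degree estimates -/
theorem key_le (a : R0) (ha : a ≠ 0) : ∃ d : ℤ, del a ≠ 0 ∧ KK.Le (-d) (del a)⁻¹ ∧
    KK.Le (d - 1) (D a) ∧ KK.Le (d - 1) (D' a) := by
  have hne : del a ≠ 0 := by
    intro h
    apply ha
    apply MonoidAlgebra.coeff_injective
    ext w
    have := del_coeff a w
    rw [h] at this
    simp at this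
    simpa using this.symm
  obtain ⟨g, hg, hlt⟩ := ex_lead (del a) hne
  have hsupp : ∀ w ∈ a.coeff.support, (wd w).n ≤ g.n := by
    intro w hw
    have h1 : (del a).c (wd w) ≠ 0 := by
      rw [del_coeff]
      simpa using hw
    have h2 : g ≤ wd w := by
      by_contra h
      exact h1 (hlt _ (not_le.mp h))
    exact Aff.n_anti h2
  refine ⟨g.n, hne, KK.Le.inv hg hlt, ?_, ?_⟩
  · rw [D, rho_sum, Matrix.sum_apply]
    apply KK.Le.sum
    intro w hw
    rw [Matrix.smul_apply]
    exact ((word_le w).1.mono (by have := hsupp w hw; omega)).zsmul _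
  · rw [D', rho_sum, Matrix.sum_apply]
    apply KK.Le.sum
    intro w hw
    rw [Matrix.smul_apply]
    exact ((word_le w).2.mono (by have := hsupp w hw; omega)).zsmul _

/-- the quasideterminant type expression -/
noncomputable def Phi (a : R0) : KK := T a - D a * (del a)⁻¹ * D' a

/-- the base point, of degree `-1` -/
def g0 : Aff := (letter 0)⁻¹

theorem c_g0 {f : KK} (hf : KK.Le (-2) f) : f.c g0 = 0 := by
  by_contra h
  have h1 := hf g0 h
  have h2 : g0.n = -1 := rfl
  omega

theorem Phi_zero : Phi 0 = 0 := by simp [Phi, T, D]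
theorem Phi_one : Phi 1 = 0 := by simp [Phi, T_one, D_one]

theorem int_mul_c (r : ℤ) (f : KK) (x : Aff) : (((r : ℤ) : KK) * f).c x = r * f.c x := by
  rw [← zsmul_eq_mul, KK.zsmul_c]

theorem Phi_mul (a b : R0) (ha : a ≠ 0) (hb : b ≠ 0) :
    Phi (a * b) = ((eps a : ℤ) : KK) * Phi b + ((eps b : ℤ) : KK) * Phi a -
      ((eps a : ℤ) : KK) * (((eps b : ℤ) : KK) * ((D b * (del b)⁻¹) * ((del a)⁻¹ * D' a))) := by
  obtain ⟨_, hA, _⟩ := key_le a ha
  obtain ⟨_, hB, _⟩ := key_le b hb
  have c1 : ∀ x : KK, x * ((eps b : ℤ) : KK) = ((eps b : ℤ) : KK) * x :=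
    fun x => (Int.cast_commute (eps b) x).eq.symm
  rw [Phi, T_mul, D_mul, D'_mul, map_mul, mul_inv_rev, c1, c1]
  have e : (((eps a : ℤ) : KK) * D b + D a * del b) * ((del b)⁻¹ * (del a)⁻¹) *
      (del a * D' b + ((eps b : ℤ) : KK) * D' a) =
      ((eps a : ℤ) : KK) * (D b * (del b)⁻¹ * D' b) + D a * D' b +
      ((eps b : ℤ) : KK) * (D a * (del a)⁻¹ * D' a) +
      ((eps a : ℤ) : KK) * (((eps b : ℤ) : KK) * ((D b * (del b)⁻¹) * ((del a)⁻¹ * D' a))) := by
    rw [← c1, ← c1 (D a * (del a)⁻¹ * D' a), ← c1 ((D b * (del b)⁻¹) * ((del a)⁻¹ * D' a))]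
    simp only [mul_add, add_mul, mul_assoc, mul_inv_cancel_left₀ hB, inv_mul_cancel_left₀ hA]
    abel
  rw [e, Phi, Phi, mul_sub, mul_sub]
  abel

theorem phi_mul (a b : R0) : (Phi (a * b)).c g0 = eps a * (Phi b).c g0 + eps b * (Phi a).c g0 := by
  by_cases ha : a = 0
  · subst ha; simp [Phi_zero]
  by_cases hb : b = 0
  · subst hb; simp [Phi_zero]
  obtain ⟨d, hA, hA1, hA2, hA3⟩ := key_le a ha
  obtain ⟨d', hB, hB1, hB2, hB3⟩ := key_le b hb
  have h0 : ((D b * (del b)⁻¹) * ((del a)⁻¹ * D' a)).c g0 = 0 :=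
    c_g0 (((hB2.mul hB1).mul (hA1.mul hA3)).mono (by omega))
  rw [Phi_mul a b ha hb, sub_c, add_c, int_mul_c, int_mul_c, int_mul_c, int_mul_c, h0]
  simp

theorem phi_one_add (a : R0) : (Phi (1 + a)).c g0 = (Phi a).c g0 := by
  by_cases ha : a = 0
  · subst ha; rw [add_zero, Phi_one, Phi_zero]
  by_cases hb : 1 + a = 0
  · have h1 : D a = 0 := by
      have := D_add 1 a
      rw [hb, D_one, zero_add] at this
      rw [← this]; simp [D]
    have h2 : T a = 0 := by
      have := T_add 1 a
      rw [hb, T_one, zero_add] at this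
      rw [← this]; simp [T]
    rw [hb, Phi_zero, Phi, h1, h2]; simp
  obtain ⟨d, hA, hA1, hA2, hA3⟩ := key_le a ha
  obtain ⟨d', hB, hB1, hB2, hB3⟩ := key_le (1 + a) hb
  have e1 : D (1 + a) = D a := by rw [D_add, D_one, zero_add]
  have e2 : D' (1 + a) = D' a := by rw [D'_add, D'_one, zero_add]
  have e3 : T (1 + a) = T a := by rw [T_add, T_one, zero_add]
  have e4 : del (1 + a) = 1 + del a := by rw [map_add, map_one]
  have e5 : (del a)⁻¹ - (del (1 + a))⁻¹ = (del a)⁻¹ * (del (1 + a))⁻¹ := by
    have h1 : (del a)⁻¹ * (del (1 + a) - del a) * (del (1 + a))⁻¹ =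
        (del a)⁻¹ - (del (1 + a))⁻¹ := by
      rw [mul_sub, sub_mul, mul_assoc, mul_inv_cancel₀ hB, mul_one, inv_mul_cancel₀ hA, one_mul]
    rw [← h1, e4, add_sub_cancel_right, mul_one]
  have e6 : Phi (1 + a) - Phi a = (D a * (del a)⁻¹) * ((del (1 + a))⁻¹ * D' (1 + a)) := by
    rw [Phi, Phi, e1, e3]
    have : (D a * (del a)⁻¹) * ((del (1 + a))⁻¹ * D' (1 + a)) =
        D a * ((del a)⁻¹ * (del (1 + a))⁻¹) * D' (1 + a) := by simp only [mul_assoc]
    rw [this, ← e5, e2, mul_sub, sub_mul]
    abel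
  have h : (Phi (1 + a) - Phi a).c g0 = 0 := by
    rw [e6]
    exact c_g0 (((hA2.mul hA1).mul (hB1.mul hB3)).mono (by omega))
  rw [sub_c] at h
  linarith

theorem rho_of (z : Fin 2) : rho (MonoidAlgebra.single (FreeMonoid.of z) 1) = gen z := by
  rw [rho_single, one_smul, genW, FreeMonoid.lift_eval_of]

theorem eps_of (z : Fin 2) : eps (MonoidAlgebra.single (FreeMonoid.of z) 1) = 0 := by
  rw [eps_single, FreeMonoid.lift_eval_of, smul_zero]

theorem del_of (z : Fin 2) : del (MonoidAlgebra.single (FreeMonoid.of z) 1) =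
    single (letter z) 1 := by
  rw [del_single, one_smul, wd, FreeMonoid.lift_eval_of]; rfl

theorem Phi_x : Phi (MonoidAlgebra.single (FreeMonoid.of 0) 1) = 0 := by
  simp [Phi, T, D, rho_of, gen]

theorem Phi_y : Phi (MonoidAlgebra.single (FreeMonoid.of 1) 1) = 0 := by
  simp [Phi, T, D', rho_of, gen]

theorem phi_xy : (Phi (MonoidAlgebra.single (FreeMonoid.of 0) 1 +
    MonoidAlgebra.single (FreeMonoid.of 1) 1)).c g0 = -1 := by
  have hD : D (MonoidAlgebra.single (FreeMonoid.of 0) 1 +
    MonoidAlgebra.single (FreeMonoid.of 1) 1) = 1 := by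
    simp [D, rho_of, gen]
  have hD' : D' (MonoidAlgebra.single (FreeMonoid.of 0) 1 +
    MonoidAlgebra.single (FreeMonoid.of 1) 1) = 1 := by
    simp [D', rho_of, gen]
  have hT : T (MonoidAlgebra.single (FreeMonoid.of 0) 1 +
    MonoidAlgebra.single (FreeMonoid.of 1) 1) = 0 := by
    simp [T, rho_of, gen]
  rw [Phi, hD, hD', hT, map_add, del_of, del_of, one_mul, mul_one, zero_sub, neg_c]
  have hlt : letter 0 < letter 1 := by
    rw [Aff.lt_iff]; right; simp [letter]
  have h1 : (single (letter 0) 1 + single (letter 1) 1 : KK).c (letter 0) = 1 := by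
    rw [add_c, single_same, single_ne _ _ _ hlt.ne, add_zero]
  have h2 : ∀ x, x < letter 0 → (single (letter 0) 1 + single (letter 1) 1 : KK).c x = 0 := by
    intro x hx
    rw [add_c, single_ne _ _ _ hx.ne, single_ne _ _ _ (hx.trans hlt).ne, add_zero]
  have h3 := (KK.inv_lead (by rw [h1]; exact one_ne_zero) h2).2
  rw [h1, one_mul] at h3
  rw [g0, h3]

/-- the exotic map on the monoid ring -/
noncomputable def F (a : R0) : DualNumber ℚ :=
  TrivSqZeroExt.inl ((eps a : ℤ) : ℚ) + TrivSqZeroExt.inr ((Phi a).c g0)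

theorem F_mul (a b : R0) : F (a * b) = F a * F b := by
  ext
  · simp [F]
  · simp only [F, TrivSqZeroExt.snd_add, TrivSqZeroExt.snd_inl, TrivSqZeroExt.snd_inr, zero_add,
      TrivSqZeroExt.snd_mul, TrivSqZeroExt.fst_add, TrivSqZeroExt.fst_inl, TrivSqZeroExt.fst_inr,
      add_zero, phi_mul]
    simp [mul_comm]

theorem F_one_add (a : R0) : F (1 + a) = 1 + F a := by
  ext
  · simp [F]
  · simp [F, phi_one_add]

theorem main : ∃ f : FreeAlgebra ℤ (Fin 2) → DualNumber ℚ,
    (∀ a, f (1 + a) = 1 + f a) ∧ (∀ a b, f (a * b) = f a * f b) ∧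
    f (FreeAlgebra.ι ℤ 0) = 0 ∧ f (FreeAlgebra.ι ℤ 1) = 0 ∧
    f (FreeAlgebra.ι ℤ 0 + FreeAlgebra.ι ℤ 1) = -DualNumber.eps := by
  have hx : ∀ z : Fin 2, FreeAlgebra.equivMonoidAlgebraFreeMonoid (FreeAlgebra.ι ℤ z) =
      MonoidAlgebra.single (FreeMonoid.of z) (1 : ℤ) := by
    intro z
    simp [FreeAlgebra.equivMonoidAlgebraFreeMonoid]
  refine ⟨fun a => F (FreeAlgebra.equivMonoidAlgebraFreeMonoid a), ?_, ?_, ?_, ?_, ?_⟩
  · intro a
    change F (FreeAlgebra.equivMonoidAlgebraFreeMonoid (1 + a)) = _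
    rw [map_add, map_one, F_one_add]
  · intro a b
    change F (FreeAlgebra.equivMonoidAlgebraFreeMonoid (a * b)) = _
    rw [map_mul, F_mul]
  · simp only [hx]
    ext <;> simp [F, eps_of, Phi_x]
  · simp only [hx]
    ext <;> simp [F, eps_of, Phi_y]
  · simp only [map_add, hx]
    ext
    · simp [F, eps_of]
    · simp only [F, TrivSqZeroExt.snd_add, TrivSqZeroExt.snd_inl, TrivSqZeroExt.snd_inr, zero_add,
        phi_xy]
      simp

end Brachy

end Pool.Agent.H979R3
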