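import Mathlib

set_option autoImplicit false
set_option linter.unusedSectionVars false

namespace Pool.Agent.H979R3

/-- Upper triangular matrices `[[p,a,c],[0,q,b],[0,0,1]]` with sign conditions on `p` and `q`. -/
@[ext] structure GG {F : Type} [Field F] (s1 s2 : F →+* ℝ) where
  p : F
  q : F
  a : F
  b : F
  c : F
  hp : 0 < s1 p
  hq : 0 < s1 q
  hp2 : 0 < s2 p

namespace GG

variable {F : Type} [Field F] {s1 s2 : F →+* ℝ}

theorem pne (x : GG s1 s2) : x.p ≠ 0 := by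
  intro h
  have := x.hp
  rw [h, map_zero] at this
  exact lt_irrefl _ this

theorem qne (x : GG s1 s2) : x.q ≠ 0 := by
  intro h
  have := x.hq
  rw [h, map_zero] at this
  exact lt_irrefl _ this

instance : Mul (GG s1 s2) := ⟨fun x y =>
  ⟨x.p * y.p, x.q * y.q, x.p * y.a + x.a * y.q, x.q * y.b + x.b, x.p * y.c + x.a * y.b + x.c,
    by rw [map_mul]; exact mul_pos x.hp y.hp,
    by rw [map_mul]; exact mul_pos x.hq y.hq,
    by rw [map_mul]; exact mul_pos x.hp2 y.hp2⟩⟩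

instance : One (GG s1 s2) := ⟨⟨1, 1, 0, 0, 0, by simp, by simp, by simp⟩⟩

instance : Inv (GG s1 s2) := ⟨fun x =>
  ⟨x.p⁻¹, x.q⁻¹, -(x.p⁻¹ * x.q⁻¹ * x.a), -(x.q⁻¹ * x.b),
    x.p⁻¹ * x.q⁻¹ * x.a * x.b - x.p⁻¹ * x.c,
    by rw [map_inv₀]; exact inv_pos.mpr x.hp,
    by rw [map_inv₀]; exact inv_pos.mpr x.hq,
    by rw [map_inv₀]; exact inv_pos.mpr x.hp2⟩⟩

@[simp] theorem mul_p (x y : GG s1 s2) : (x * y).p = x.p * y.p := rfl
@[simp] theorem mul_q (x y : GG s1 s2) : (x * y).q = x.q * y.q := rfl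
@[simp] theorem mul_a (x y : GG s1 s2) : (x * y).a = x.p * y.a + x.a * y.q := rfl
@[simp] theorem mul_b (x y : GG s1 s2) : (x * y).b = x.q * y.b + x.b := rfl
@[simp] theorem mul_cc (x y : GG s1 s2) : (x * y).c = x.p * y.c + x.a * y.b + x.c := rfl
@[simp] theorem one_p : (1 : GG s1 s2).p = 1 := rfl
@[simp] theorem one_q : (1 : GG s1 s2).q = 1 := rfl
@[simp] theorem one_a : (1 : GG s1 s2).a = 0 := rfl
@[simp] theorem one_b : (1 : GG s1 s2).b = 0 := rfl
@[simp] theorem one_c : (1 : GG s1 s2).c = 0 := rfl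
@[simp] theorem inv_p (x : GG s1 s2) : (x⁻¹).p = x.p⁻¹ := rfl
@[simp] theorem inv_q (x : GG s1 s2) : (x⁻¹).q = x.q⁻¹ := rfl
@[simp] theorem inv_a (x : GG s1 s2) : (x⁻¹).a = -(x.p⁻¹ * x.q⁻¹ * x.a) := rfl
@[simp] theorem inv_b (x : GG s1 s2) : (x⁻¹).b = -(x.q⁻¹ * x.b) := rfl
@[simp] theorem inv_c (x : GG s1 s2) : (x⁻¹).c =
    x.p⁻¹ * x.q⁻¹ * x.a * x.b - x.p⁻¹ * x.c := rfl

instance : Group (GG s1 s2) := Group.ofLeftAxioms
  (by intro x y z; ext <;> simp <;> ring)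
  (by intro x; ext <;> simp)
  (by
    intro x
    have := x.pne
    have := x.qne
    ext <;> simp <;> field_simp <;> ring)

/-- lexicographic coordinates -/
def key (x : GG s1 s2) : ℝ ×ₗ ℝ ×ₗ ℝ ×ₗ ℝ ×ₗ ℝ :=
  toLex (s1 x.p, toLex (s1 x.q, toLex (s1 x.a, toLex (s1 x.b, s2 x.c))))

theorem key_inj : Function.Injective (key : GG s1 s2 → _) := by
  intro x y h
  simp only [key, toLex_inj, Prod.mk.injEq] at h
  obtain ⟨h1, h2, h3, h4, h5⟩ := h
  ext
  · exact s1.injective h1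
  · exact s1.injective h2
  · exact s1.injective h3
  · exact s1.injective h4
  · exact s2.injective h5

noncomputable instance : LinearOrder (GG s1 s2) := LinearOrder.lift' key key_inj

theorem lt_iff (x y : GG s1 s2) : x < y ↔ s1 x.p < s1 y.p ∨ (x.p = y.p ∧ (s1 x.q < s1 y.q ∨
    (x.q = y.q ∧ (s1 x.a < s1 y.a ∨ (x.a = y.a ∧ (s1 x.b < s1 y.b ∨ (x.b = y.b ∧
      s2 x.c < s2 y.c))))))) := by
  change key x < key y ↔ _
  simp only [key, Prod.Lex.toLex_lt_toLex, s1.injective.eq_iff]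

theorem mul_lt_left (z : GG s1 s2) {x y : GG s1 s2} (h : x < y) : z * x < z * y := by
  rw [lt_iff] at h ⊢
  have hp := z.hp
  have hq := z.hq
  have hp2 := z.hp2
  rcases h with h | ⟨e1, h | ⟨e2, h | ⟨e3, h | ⟨e4, h⟩⟩⟩⟩
  · left
    simp only [mul_p, map_mul]
    exact mul_lt_mul_of_pos_left h hp
  · right
    refine ⟨by simp [e1], Or.inl ?_⟩
    simp only [mul_q, map_mul]
    exact mul_lt_mul_of_pos_left h hq
  · right
    refine ⟨by simp [e1], Or.inr ⟨by simp [e2], Or.inl ?_⟩⟩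
    simp only [mul_a, map_mul, map_add, e2]
    have := mul_lt_mul_of_pos_left h hp
    linarith
  · right
    refine ⟨by simp [e1], Or.inr ⟨by simp [e2], Or.inr ⟨by simp [e2, e3], Or.inl ?_⟩⟩⟩
    simp only [mul_b, map_mul, map_add]
    have := mul_lt_mul_of_pos_left h hq
    linarith
  · right
    refine ⟨by simp [e1], Or.inr ⟨by simp [e2], Or.inr ⟨by simp [e2, e3], Or.inr ⟨by simp [e4], ?_⟩⟩⟩⟩
    simp only [mul_cc, map_mul, map_add, e4]
    have := mul_lt_mul_of_pos_left h hp2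
    linarith

theorem mul_lt_right (z : GG s1 s2) {x y : GG s1 s2} (h : x < y) : x * z < y * z := by
  rw [lt_iff] at h ⊢
  have hp := z.hp
  have hq := z.hq
  have hp2 := z.hp2
  rcases h with h | ⟨e1, h | ⟨e2, h | ⟨e3, h | ⟨e4, h⟩⟩⟩⟩
  · left
    simp only [mul_p, map_mul]
    exact mul_lt_mul_of_pos_right h hp
  · right
    refine ⟨by simp [e1], Or.inl ?_⟩
    simp only [mul_q, map_mul]
    exact mul_lt_mul_of_pos_right h hq
  · right
    refine ⟨by simp [e1], Or.inr ⟨by simp [e2], Or.inl ?_⟩⟩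
    simp only [mul_a, map_mul, map_add, e1]
    have := mul_lt_mul_of_pos_right h hq
    linarith
  · right
    refine ⟨by simp [e1], Or.inr ⟨by simp [e2], Or.inr ⟨by simp [e1, e3], Or.inl ?_⟩⟩⟩
    simp only [mul_b, map_mul, map_add, e2]
    linarith
  · right
    refine ⟨by simp [e1], Or.inr ⟨by simp [e2], Or.inr ⟨by simp [e1, e3], Or.inr
      ⟨by simp [e2, e4], ?_⟩⟩⟩⟩
    simp only [mul_cc, map_mul, map_add, e1, e3]
    linarith

instance : MulLeftMono (GG s1 s2) := ⟨by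
  intro z x y h
  rcases h.eq_or_lt with h | h
  · rw [h]
  · exact (mul_lt_left z h).le⟩

instance : MulRightMono (GG s1 s2) := ⟨by
  intro z x y h
  rcases h.eq_or_lt with h | h
  · rw [h]
  · exact (mul_lt_right z h).le⟩

end GG

end Pool.Agent.H979R3
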