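import Pool.Agent.H979R3.MN

set_option autoImplicit false
set_option linter.unusedSectionVars false

namespace Pool.Agent.H979R3

open Set Function
open scoped Pointwise

namespace MN

variable {G : Type*} [Group G] [LinearOrder G] [MulLeftMono G] [MulRightMono G]

theorem supp_pow (y : MN G) (n : ℕ) : Function.support (y ^ n).c ⊆
    (Submonoid.closure (Function.support y.c) : Set G) := by
  induction n with
  | zero =>
    intro x hx
    rw [pow_zero, one_def, Function.mem_support] at hx
    by_cases h : x = 1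
    · subst h; exact one_mem _
    · exact absurd (single_ne _ _ _ h) hx
  | succ n ih =>
    rw [pow_succ]
    intro x hx
    obtain ⟨a, ha, b, hb, hab⟩ := supp_mul _ _ hx
    rw [← hab]
    exact mul_mem (ih ha) (Submonoid.subset_closure hb)

theorem nilp (y : MN G) (hy : ∀ x, y.c x ≠ 0 → 1 < x) (x : G) :
    {n : ℕ | (y ^ n).c x ≠ 0}.Finite := by
  have hM : (Submonoid.closure (Function.support y.c) : Set G).IsPWO :=
    pwo_closure y.pwo (fun x hx => (hy x hx).le)
  by_cases hx : x ∈ (Submonoid.closure (Function.support y.c) : Set G)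
  swap
  · refine Set.finite_empty.subset ?_
    intro n hn
    exact hx (supp_pow y n hn)
  · have hwf := hM.isWF
    revert hx
    refine fun hx => Set.WellFoundedOn.induction (P := fun x => {n : ℕ | (y ^ n).c x ≠ 0}.Finite) hwf hx ?_
    intro x hx ih
    have hfin := fin_pairs y.pwo hM x
    have key : {n : ℕ | (y ^ n).c x ≠ 0} ⊆ {0} ∪
        ⋃ a ∈ {a : G | a ∈ Function.support y.c ∧ a⁻¹ * x ∈
          (Submonoid.closure (Function.support y.c) : Set G)},
          Nat.succ '' {n : ℕ | (y ^ n).c (a⁻¹ * x) ≠ 0} := by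
      intro n hn
      rcases n with _ | n
      · left; rfl
      · right
        rw [Set.mem_ofPred_eq, pow_succ', mul_c] at hn
        obtain ⟨a, ha⟩ := ex_of_finsum hn
        have h1 : y.c a ≠ 0 := left_ne_zero_of_mul ha
        have h2 : (y ^ n).c (a⁻¹ * x) ≠ 0 := right_ne_zero_of_mul ha
        simp only [Set.mem_iUnion]
        exact ⟨a, ⟨h1, supp_pow y n h2⟩, n, h2, rfl⟩
    refine Set.Finite.subset ?_ key
    refine (Set.finite_singleton 0).union (hfin.biUnion ?_)
    intro a ha
    refine Set.Finite.image _ (ih _ ha.2 ?_)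
    have h1 : 1 < a := hy a ha.1
    calc a⁻¹ * x < 1 * x := by
          apply mul_lt_mul_left
          exact Left.inv_lt_one_iff.mpr h1
      _ = x := one_mul x

theorem ex_inv_one_sub (y : MN G) (hy : ∀ x, y.c x ≠ 0 → 1 < x) :
    ∃ z : MN G, (1 - y) * z = 1 := by
  have hM : (Submonoid.closure (Function.support y.c) : Set G).IsPWO :=
    pwo_closure y.pwo (fun x hx => (hy x hx).le)
  have hN : ∀ x : G, ∃ N : ℕ, ∀ n, N ≤ n → (y ^ n).c x = 0 := by
    intro x
    obtain ⟨N, hN⟩ := (nilp y hy x).bddAbove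
    refine ⟨N + 1, fun n hn => ?_⟩
    by_contra h
    have := hN h
    omega
  choose N hN using hN
  have hsumc : ∀ (K : ℕ) (x : G), (∑ n ∈ Finset.range K, y ^ n).c x =
      ∑ n ∈ Finset.range K, (y ^ n).c x := by
    intro K x
    induction K with
    | zero => simp
    | succ K ih => rw [Finset.sum_range_succ, Finset.sum_range_succ, add_c, ih]
  let z : MN G := ⟨fun x => ∑ n ∈ Finset.range (N x), (y ^ n).c x, by
    refine hM.mono ?_
    intro x hx
    rw [Function.mem_support] at hx
    obtain ⟨n, _, hn⟩ := Finset.exists_ne_zero_of_sum_ne_zero hx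
    exact supp_pow y n hn⟩
  have hz : ∀ (x : G) (K : ℕ), N x ≤ K → z.c x = (∑ n ∈ Finset.range K, y ^ n).c x := by
    intro x K hK
    rw [hsumc]
    change ∑ n ∈ Finset.range (N x), (y ^ n).c x = _
    apply Finset.sum_subset (Finset.range_mono hK)
    intro n _ hn
    exact hN x n (by simpa using hn)
  have hz0 : ∀ (x : G), x ∉ (Submonoid.closure (Function.support y.c) : Set G) → ∀ K : ℕ,
      (∑ n ∈ Finset.range K, y ^ n).c x = 0 := by
    intro x hx K
    rw [hsumc]
    apply Finset.sum_eq_zero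
    intro n _
    by_contra h
    exact hx (supp_pow y n h)
  refine ⟨z, ?_⟩
  ext x
  have hfin := fin_pairs (1 - y).pwo hM x
  -- a bound valid at all relevant points
  have hK : ∃ K : ℕ, N x ≤ K ∧ ∀ a ∈ {a : G | a ∈ Function.support (1 - y).c ∧ a⁻¹ * x ∈
      (Submonoid.closure (Function.support y.c) : Set G)}, N (a⁻¹ * x) ≤ K := by
    obtain ⟨K, hK⟩ := (hfin.image (fun a => N (a⁻¹ * x))).bddAbove
    refine ⟨max (N x) K, le_max_left _ _, fun a ha => le_trans (hK ⟨a, ha, rfl⟩) (le_max_right _ _)⟩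
  obtain ⟨K, hK1, hK2⟩ := hK
  have e1 : ((1 - y) * z).c x = ((1 - y) * (∑ n ∈ Finset.range K, y ^ n)).c x := by
    rw [mul_c, mul_c]
    apply finsum_congr
    intro a
    by_cases ha : (1 - y).c a = 0
    · rw [ha, zero_mul, zero_mul]
    · by_cases hax : a⁻¹ * x ∈ (Submonoid.closure (Function.support y.c) : Set G)
      · rw [hz _ K (hK2 a ⟨ha, hax⟩)]
      · rw [hz _ (N (a⁻¹ * x)) le_rfl, hz0 _ hax, hz0 _ hax]
  rw [e1, mul_neg_geom_sum, sub_c, hN x K hK1, sub_zero]

theorem ex_lead (f : MN G) (hf : f ≠ 0) : ∃ g : G, f.c g ≠ 0 ∧ ∀ x, x < g → f.c x = 0 := by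
  have hne : (Function.support f.c).Nonempty := by
    by_contra h
    apply hf
    ext x
    by_contra hx
    exact h ⟨x, hx⟩
  refine ⟨f.pwo.isWF.min hne, f.pwo.isWF.min_mem hne, fun x hx => ?_⟩
  by_contra h
  exact f.pwo.isWF.not_lt_min hne h hx

theorem ex_inv (f : MN G) (hf : f ≠ 0) : ∃ z : MN G, f * z = 1 := by
  obtain ⟨g, hg, hlt⟩ := ex_lead f hf
  set y : MN G := 1 - single g⁻¹ (f.c g)⁻¹ * f with hy
  have hyc : ∀ x, y.c x ≠ 0 → 1 < x := by
    intro x hx
    rw [hy, sub_c, single_mul_c, inv_inv] at hx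
    by_contra h
    rw [not_lt] at h
    apply hx
    rcases h.eq_or_lt with h | h
    · subst h
      rw [one_def, single_same, mul_one, inv_mul_cancel₀ hg, sub_self]
    · have : g * x < g := by
        calc g * x < g * 1 := mul_lt_mul_right h g
          _ = g := mul_one g
      rw [hlt _ this, one_def, single_ne _ _ _ h.ne, mul_zero, sub_zero]
  obtain ⟨z, hz⟩ := ex_inv_one_sub y hyc
  refine ⟨z * single g⁻¹ (f.c g)⁻¹, ?_⟩
  have h1 : f = single g (f.c g) * (1 - y) := by
    rw [hy, sub_sub_cancel, ← mul_assoc, single_mul_single, mul_inv_cancel, mul_inv_cancel₀ hg,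
      ← one_def, one_mul]
  calc f * (z * single g⁻¹ (f.c g)⁻¹) = single g (f.c g) * ((1 - y) * z) * single g⁻¹ (f.c g)⁻¹ := by
        rw [← mul_assoc, ← mul_assoc, ← h1]
    _ = 1 := by
        rw [hz, mul_one, single_mul_single, mul_inv_cancel, mul_inv_cancel₀ hg, ← one_def]

end MN

end Pool.Agent.H979R3
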