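import Mathlib

set_option autoImplicit false
set_option linter.unusedSectionVars false

namespace Pool.Agent.H979R3

open Set Function
open scoped Pointwise

section pwo

variable {G : Type*} [Group G] [LinearOrder G] [MulLeftMono G] [MulRightMono G]

theorem pwo_mul {S T : Set G} (hS : S.IsPWO) (hT : T.IsPWO) : (S * T).IsPWO := by
  rw [← image_mul_prod]
  exact (hS.prod hT).image_of_monotone (fun a b h => mul_le_mul' h.1 h.2)

theorem fin_pairs {S T : Set G} (hS : S.IsPWO) (hT : T.IsPWO) (x : G) :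
    {a : G | a ∈ S ∧ a⁻¹ * x ∈ T}.Finite := by
  by_contra h
  have hinf : {a : G | a ∈ S ∧ a⁻¹ * x ∈ T}.Infinite := h
  let e := hinf.natEmbedding
  have hS' := fun n => (e n).2.1
  have hT' := fun n => (e n).2.2
  obtain ⟨g, hg⟩ := hS.exists_monotone_subseq (f := fun n => ((e n : G))) hS'
  obtain ⟨m, n, hmn, hle⟩ := hT (fun n => ⟨((e (g n) : G))⁻¹ * x, hT' (g n)⟩)
  have h1 : ((e (g m) : G)) ≤ (e (g n) : G) := hg hmn.le
  have hle' : ((e (g m) : G))⁻¹ * x ≤ ((e (g n) : G))⁻¹ * x := hle
  have h2 : ((e (g m) : G))⁻¹ ≤ ((e (g n) : G))⁻¹ := by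
    have := mul_le_mul_left hle' x⁻¹
    simpa using this
  have h3 : (e (g n) : G) ≤ (e (g m) : G) := inv_le_inv_iff.mp h2
  have h4 : (e (g m) : G) = (e (g n) : G) := le_antisymm h1 h3
  have h5 : g m = g n := e.injective (Subtype.ext h4)
  exact hmn.ne (g.injective h5)

theorem pwo_closure {S : Set G} (hS : S.IsPWO) (hpos : ∀ x ∈ S, 1 ≤ x) :
    (Submonoid.closure S : Set G).IsPWO := by
  rw [Submonoid.closure_eq_image_prod]
  refine (hS.partiallyWellOrderedOn_sublistForall₂ (· ≤ ·)).image_of_monotone_on ?_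
  exact fun l1 _ l2 hl2 h12 => h12.prod_le_prod' fun x hx => hpos x <| hl2 x hx

end pwo

/-- Malcev-Neumann series: functions on an ordered group with well-ordered support. -/
structure MN (G : Type*) [Group G] [LinearOrder G] where
  c : G → ℚ
  pwo : (Function.support c).IsPWO

namespace MN

variable {G : Type*} [Group G] [LinearOrder G]

@[ext] theorem ext' {f g : MN G} (h : ∀ x, f.c x = g.c x) : f = g := by
  cases f; cases g; congr; funext x; exact h x

instance : Zero (MN G) := ⟨⟨0, by simp⟩⟩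
instance : Add (MN G) := ⟨fun f g => ⟨f.c + g.c, (f.pwo.union g.pwo).mono (Function.support_add _ _)⟩⟩
instance : Neg (MN G) := ⟨fun f => ⟨-f.c, by rw [Function.support_neg]; exact f.pwo⟩⟩
instance : Sub (MN G) := ⟨fun f g => ⟨f.c - g.c, (f.pwo.union g.pwo).mono (Function.support_sub _ _)⟩⟩
instance : SMul ℕ (MN G) := ⟨fun n f => ⟨n • f.c, f.pwo.mono (Function.support_const_smul_subset n f.c)⟩⟩
instance : SMul ℤ (MN G) := ⟨fun n f => ⟨n • f.c, f.pwo.mono (Function.support_const_smul_subset n f.c)⟩⟩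

theorem c_inj : Function.Injective (MN.c : MN G → G → ℚ) := by
  intro f g h; cases f; cases g; congr

instance : AddCommGroup (MN G) :=
  Function.Injective.addCommGroup MN.c c_inj rfl (fun _ _ => rfl) (fun _ => rfl) (fun _ _ => rfl)
    (fun _ _ => rfl) (fun _ _ => rfl)

@[simp] theorem zero_c (x : G) : (0 : MN G).c x = 0 := rfl
@[simp] theorem add_c (f g : MN G) (x : G) : (f + g).c x = f.c x + g.c x := rfl
@[simp] theorem neg_c (f : MN G) (x : G) : (-f).c x = - f.c x := rfl
@[simp] theorem sub_c (f g : MN G) (x : G) : (f - g).c x = f.c x - g.c x := rfl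

/-- monomial -/
def single (g : G) (r : ℚ) : MN G :=
  ⟨Pi.single g r, (Set.subsingleton_singleton.isPWO (s := {g})).mono (by
    intro x hx
    rw [Function.mem_support] at hx
    by_contra hne
    apply hx
    have hne' : x ≠ g := hne
    simp [hne'])⟩

@[simp] theorem single_same (g : G) (r : ℚ) : (single g r).c g = r := by
  simp [single]

theorem single_ne (g x : G) (r : ℚ) (h : x ≠ g) : (single g r).c x = 0 := by
  simp [single, Pi.single_eq_of_ne h]

theorem ex_of_finsum {α : Type*} {f : α → ℚ} (h : ∑ᶠ a, f a ≠ 0) : ∃ a, f a ≠ 0 := by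
  by_contra hc
  exact h (finsum_eq_zero_of_forall_eq_zero fun x => by
    by_contra hx
    exact hc ⟨x, hx⟩)

variable [MulLeftMono G] [MulRightMono G]

theorem fin_mul (f g : MN G) (x : G) : (Function.support fun a => f.c a * g.c (a⁻¹ * x)).Finite := by
  refine (fin_pairs f.pwo g.pwo x).subset ?_
  intro a ha
  rw [Function.mem_support] at ha
  exact ⟨left_ne_zero_of_mul ha, right_ne_zero_of_mul ha⟩

noncomputable instance : Mul (MN G) := ⟨fun f g =>
  ⟨fun x => ∑ᶠ a : G, f.c a * g.c (a⁻¹ * x), by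
    refine (pwo_mul f.pwo g.pwo).mono ?_
    intro x hx
    rw [Function.mem_support] at hx
    obtain ⟨a, ha⟩ := ex_of_finsum hx
    exact ⟨a, left_ne_zero_of_mul ha, a⁻¹ * x, right_ne_zero_of_mul ha, by simp⟩⟩⟩

theorem mul_c (f g : MN G) (x : G) : (f * g).c x = ∑ᶠ a : G, f.c a * g.c (a⁻¹ * x) := rfl

theorem supp_mul (f g : MN G) : Function.support (f * g).c ⊆
    Function.support f.c * Function.support g.c := by
  intro x hx
  rw [Function.mem_support] at hx
  obtain ⟨a, ha⟩ := ex_of_finsum hx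
  exact ⟨a, left_ne_zero_of_mul ha, a⁻¹ * x, right_ne_zero_of_mul ha, by simp⟩

noncomputable instance : One (MN G) := ⟨single 1 1⟩

theorem one_def : (1 : MN G) = single 1 1 := rfl

theorem single_mul_c (g : G) (r : ℚ) (f : MN G) (x : G) :
    (single g r * f).c x = r * f.c (g⁻¹ * x) := by
  rw [mul_c, finsum_eq_single _ g]
  · simp
  · intro a ha
    rw [single_ne _ _ _ ha, zero_mul]

theorem mul_single_c (g : G) (r : ℚ) (f : MN G) (x : G) :
    (f * single g r).c x = f.c (x * g⁻¹) * r := by
  rw [mul_c, finsum_eq_single _ (x * g⁻¹)]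
  · have : (x * g⁻¹)⁻¹ * x = g := by group
    rw [this]; simp
  · intro a ha
    rw [single_ne, mul_zero]
    intro h
    apply ha
    rw [← h]; group

theorem mul_assoc' (f g h : MN G) : f * g * h = f * (g * h) := by
  ext x
  rw [mul_c, mul_c]
  have hfin : (Function.support fun p : G × G => f.c p.1 * g.c (p.1⁻¹ * p.2) * h.c (p.2⁻¹ * x)).Finite := by
    have h1 := fin_pairs (pwo_mul f.pwo g.pwo) h.pwo x
    have h2 : ∀ b : G, {a : G | a ∈ Function.support f.c ∧ a⁻¹ * b ∈ Function.support g.c}.Finite :=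
      fun b => fin_pairs f.pwo g.pwo b
    refine (Set.Finite.biUnion h1 (fun b _ => (h2 b).image (fun a => (a, b)))).subset ?_
    rintro ⟨a, b⟩ hab
    rw [Function.mem_support] at hab
    have ha : f.c a ≠ 0 := left_ne_zero_of_mul (left_ne_zero_of_mul hab)
    have hb : g.c (a⁻¹ * b) ≠ 0 := right_ne_zero_of_mul (left_ne_zero_of_mul hab)
    have hc : h.c (b⁻¹ * x) ≠ 0 := right_ne_zero_of_mul hab
    simp only [Set.mem_iUnion]
    exact ⟨b, ⟨⟨a, ha, a⁻¹ * b, hb, by simp⟩, hc⟩, a, ⟨ha, hb⟩, rfl⟩
  have e1 : ∀ b : G, (f * g).c b * h.c (b⁻¹ * x) =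
      ∑ᶠ a : G, f.c a * g.c (a⁻¹ * b) * h.c (b⁻¹ * x) := by
    intro b
    rw [mul_c, finsum_mul' _ _ (fin_mul f g b)]
  have e2 : ∀ a : G, f.c a * (g * h).c (a⁻¹ * x) =
      ∑ᶠ b : G, f.c a * g.c (a⁻¹ * b) * h.c (b⁻¹ * x) := by
    intro a
    rw [mul_c, mul_finsum' _ _ (fin_mul g h _)]
    symm
    rw [← finsum_comp_equiv (Equiv.mulLeft a)]
    apply finsum_congr
    intro b
    simp only [Equiv.coe_mulLeft]
    rw [inv_mul_cancel_left, mul_inv_rev, mul_assoc, mul_assoc]
  simp_rw [e1, e2]
  rw [← finsum_curry _ hfin]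
  have hfin' : (Function.support fun p : G × G =>
      f.c p.2 * g.c (p.2⁻¹ * p.1) * h.c (p.1⁻¹ * x)).Finite := by
    refine (hfin.image Prod.swap).subset ?_
    rintro ⟨b, a⟩ hab
    exact ⟨(a, b), hab, rfl⟩
  rw [← finsum_curry _ hfin', ← finsum_comp_equiv (Equiv.prodComm G G)]
  rfl

noncomputable instance : Ring (MN G) :=
  { (inferInstance : AddCommGroup (MN G)) with
    mul := (· * ·)
    one := 1
    mul_assoc := mul_assoc'
    left_distrib := by
      intro f g h
      ext x
      rw [add_c, mul_c, mul_c, mul_c, ← finsum_add_distrib (fin_mul f g x) (fin_mul f h x)]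
      apply finsum_congr
      intro a
      rw [add_c, mul_add]
    right_distrib := by
      intro f g h
      ext x
      rw [add_c, mul_c, mul_c, mul_c, ← finsum_add_distrib (fin_mul f h x) (fin_mul g h x)]
      apply finsum_congr
      intro a
      rw [add_c, add_mul]
    zero_mul := by
      intro f
      ext x
      rw [mul_c]
      simp
    mul_zero := by
      intro f
      ext x
      rw [mul_c]
      simp
    one_mul := by
      intro f
      ext x
      rw [one_def, single_mul_c]
      simp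
    mul_one := by
      intro f
      ext x
      rw [one_def, mul_single_c]
      simp }

theorem single_mul_single (g h : G) (r s : ℚ) : single g r * single h s = single (g * h) (r * s) := by
  ext x
  rw [single_mul_c]
  by_cases hx : x = g * h
  · subst hx
    simp
  · rw [single_ne _ x _ hx, single_ne, mul_zero]
    intro h'
    apply hx
    rw [← h']; group

end MN

end Pool.Agent.H979R3
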