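import Pool.Agent.H979R3.Ord
import Pool.Agent.H979R3.Grp

set_option autoImplicit false
set_option linter.unusedSectionVars false

namespace Pool.Agent.H979R3

section ordered

variable {L : Type*} [DivisionRing L] [LinearOrder L] [IsStrictOrderedRing L]

theorem sq_inj {x y : L} (hx : 0 < x) (hy : 0 < y) (h : x * x = y * y) : x = y := by
  rcases lt_trichotomy x y with h1 | h1 | h1
  · exact absurd h (mul_lt_mul'' h1 h1 hx.le hx.le).ne
  · exact h1
  · exact absurd h (mul_lt_mul'' h1 h1 hy.le hy.le).ne'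

/-- Positive square roots commute with what their squares commute with. -/
theorem comm_of_sq {x s : L} (hx : 0 < x) (hs : 0 < s) (h : x * x * s = s * (x * x)) :
    x * s = s * x := by
  have hs' : 0 < s⁻¹ := inv_pos.mpr hs
  have h1 : s * x * s⁻¹ = x := by
    apply sq_inj (mul_pos (mul_pos hs hx) hs') hx
    calc s * x * s⁻¹ * (s * x * s⁻¹) = s * x * (s⁻¹ * s) * x * s⁻¹ := by simp only [mul_assoc]
      _ = s * (x * x) * s⁻¹ := by rw [inv_mul_cancel₀ hs.ne']; simp only [mul_one, mul_assoc]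
      _ = x * x := by rw [← h, mul_assoc, mul_inv_cancel₀ hs.ne', mul_one]
  calc x * s = s * x * s⁻¹ * s := by rw [h1]
    _ = s * x := by rw [mul_assoc, inv_mul_cancel₀ hs.ne', mul_one]

/-- Uniqueness of the root of the operator `1 + s`. -/
theorem conj_unique {x s v u : L} (hx : 0 < x) (hs : 0 < s) (hv : 0 < v) (hu : 0 < u)
    (hxs : x * s = s * x) (huv : u * s = v * s * v)
    (h : x * x * v * s = u * s * u * (x * x)) :
    x * v = u * x := by
  obtain ⟨w, hw0, hw⟩ : ∃ w, 0 < w ∧ w * x = x * v :=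
    ⟨x * v * x⁻¹, mul_pos (mul_pos hx hv) (inv_pos.mpr hx), by
      rw [mul_assoc, inv_mul_cancel₀ hx.ne', mul_one]⟩
  have e1 : x * u * s = w * s * w * x := by
    calc x * u * s = x * (u * s) := mul_assoc _ _ _
      _ = (x * v) * s * v := by rw [huv]; simp only [mul_assoc]
      _ = w * (x * s) * v := by rw [← hw]; simp only [mul_assoc]
      _ = w * s * (x * v) := by rw [hxs]; simp only [mul_assoc]
      _ = w * s * w * x := by rw [← hw]; simp only [mul_assoc]
  have e2 : x * x * v * s = x * w * s * x := by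
    calc x * x * v * s = x * (x * v) * s := by simp only [mul_assoc]
      _ = x * w * (x * s) := by rw [← hw]; simp only [mul_assoc]
      _ = x * w * s * x := by rw [hxs]; simp only [mul_assoc]
  have key : w = u := by
    rcases lt_trichotomy w u with h1 | h1 | h1
    · exfalso
      have l1 : x * w * s * x < x * u * s * x :=
        mul_lt_mul_of_pos_right (mul_lt_mul_of_pos_right (mul_lt_mul_of_pos_left h1 hx) hs) hx
      have l2 : w * s * w < u * s * u :=
        mul_lt_mul'' (mul_lt_mul_of_pos_right h1 hs) h1 (mul_pos hw0 hs).le hw0.le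
      have l3 : w * s * w * x * x < u * s * u * (x * x) := by
        rw [mul_assoc (w * s * w)]
        exact mul_lt_mul_of_pos_right l2 (mul_pos hx hx)
      rw [e1, ← e2, h] at l1
      exact lt_irrefl _ (l1.trans l3)
    · exact h1
    · exfalso
      have l1 : x * u * s * x < x * w * s * x :=
        mul_lt_mul_of_pos_right (mul_lt_mul_of_pos_right (mul_lt_mul_of_pos_left h1 hx) hs) hx
      have l2 : u * s * u < w * s * w :=
        mul_lt_mul'' (mul_lt_mul_of_pos_right h1 hs) h1 (mul_pos hu hs).le hu.le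
      have l3 : u * s * u * (x * x) < w * s * w * x * x := by
        rw [mul_assoc (w * s * w)]
        exact mul_lt_mul_of_pos_right l2 (mul_pos hx hx)
      rw [e1, ← e2, h] at l1
      exact lt_irrefl _ (l1.trans l3)
  rw [← hw, key]

/-- The obstruction: a configuration in an ordered division ring which forces `g` not to be a
square of a positive element. -/
theorem obstruction {g s v v' u u' : L} (hs : 0 < s) (hv : 0 < v) (hv' : 0 < v')
    (hu : 0 < u) (hu' : 0 < u') (hgs : g * s = s * g)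
    (huv : u * s = v * s * v) (huv' : u' * s = v' * s * v')
    (h : g * v * s = u * s * u * g) (h' : g * v' * s = u' * s * u' * g)
    (hlt : v * v' < v' * v) (hgt : u' * u < u * u')
    (x : L) (hx : 0 < x) (hxg : x * x = g) : False := by
  have hxs : x * s = s * x := comm_of_sq hx hs (by rw [hxg, hgs])
  have e1 : x * v = u * x := conj_unique hx hs hv hu hxs huv (by rw [hxg]; exact h)
  have e2 : x * v' = u' * x := conj_unique hx hs hv' hu' hxs huv' (by rw [hxg]; exact h')
  have l1 : x * (v * v') < x * (v' * v) := mul_lt_mul_of_pos_left hlt hx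
  have f1 : x * (v * v') = u * u' * x := by
    rw [← mul_assoc, e1, mul_assoc, e2, mul_assoc]
  have f2 : x * (v' * v) = u' * u * x := by
    rw [← mul_assoc, e2, mul_assoc, e1, mul_assoc]
  rw [f1, f2] at l1
  have l2 : u' * u * x < u * u' * x := mul_lt_mul_of_pos_right hgt hx
  exact lt_irrefl _ (l1.trans l2)

end ordered

theorem sqrt2_gt : 1 < √2 := by
  rw [Real.lt_sqrt] <;> norm_num
theorem sqrt2_lt : √2 < 2 := by
  rw [Real.sqrt_lt'] <;> norm_num

section elements

variable {F : Type} [Field F] {s1 s2 : F →+* ℝ} (r : F) (h1 : s1 r = √2) (h2 : s2 r = -√2)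

/-- diagonal element with `p = 1`, `q = r/2` -/
noncomputable def eS : GG s1 s2 := ⟨1, r / 2, 0, 0, 0, by simp, by
  rw [map_div₀, h1, map_ofNat]; positivity, by simp⟩

/-- diagonal element with `p/q = (1+r)^2`, `q = (1+r/2)^2` -/
noncomputable def eg : GG s1 s2 := ⟨((1 + r) * (1 + r / 2)) ^ 2, (1 + r / 2) ^ 2, 0, 0, 0, by
  rw [map_pow, map_mul, map_add, map_add, map_div₀, h1, map_ofNat, map_one]; positivity, by
  rw [map_pow, map_add, map_div₀, h1, map_ofNat, map_one]; positivity, by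
  rw [map_pow, map_mul, map_add, map_add, map_div₀, h2, map_ofNat, map_one]
  have h1 := sqrt2_gt
  have h2 := sqrt2_lt
  rw [sq_pos_iff]
  apply mul_ne_zero
  · apply ne_of_lt; linarith
  · apply ne_of_gt; linarith⟩

/-- unipotent element with `a = t` -/
def eV (t : F) : GG s1 s2 := ⟨1, 1, t, 0, 0, by simp, by simp, by simp⟩
/-- unipotent element with `b = t` -/
def eW (t : F) : GG s1 s2 := ⟨1, 1, 0, t, 0, by simp, by simp, by simp⟩

theorem rsq (h1 : s1 r = √2) : r * r = 2 := by
  apply s1.injective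
  rw [map_mul, h1, map_ofNat]
  simp

theorem rel1 : eg r h1 h2 * eS r h1 = eS r h1 * eg r h1 h2 := by
  ext
  · simp [eg, eS]
  · simp [eg, eS]
    ring
  · simp [eg, eS]
  · simp [eg, eS]
  · simp [eg, eS]

variable [CharZero F]

theorem rel2 : (eV (1 + r) : GG s1 s2) * eS r h1 = eV 1 * eS r h1 * eV 1 := by
  have := rsq r h1
  ext
  · simp [eV, eS]
  · simp [eV, eS]
  · simp [eV, eS]
    linear_combination (1 / 2) * this
  · simp [eV, eS]
  · simp [eV, eS]

theorem rel2' : (eW (1 + r / 2) : GG s1 s2) * eS r h1 = eW 1 * eS r h1 * eW 1 := by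
  have := rsq r h1
  ext
  · simp [eW, eS]
  · simp [eW, eS]
  · simp [eW, eS]
  · simp [eW, eS]
    ring
  · simp [eW, eS]

theorem rel3 : eg r h1 h2 * eV 1 * eS r h1 = eV (1 + r) * eS r h1 * eV (1 + r) * eg r h1 h2 := by
  have := rsq r h1
  ext
  · simp [eV, eS, eg]
  · simp [eV, eS, eg]
    ring
  · simp [eV, eS, eg]
    linear_combination (1 + r / 2) ^ 2 * (1 + r) * (1 / 2) * this
  · simp [eV, eS, eg]
  · simp [eV, eS, eg]

theorem rel3' : eg r h1 h2 * eW 1 * eS r h1 =
    eW (1 + r / 2) * eS r h1 * eW (1 + r / 2) * eg r h1 h2 := by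
  have := rsq r h1
  ext
  · simp [eW, eS, eg]
  · simp [eW, eS, eg]
    ring
  · simp [eW, eS, eg]
  · simp [eW, eS, eg]
    ring
  · simp [eW, eS, eg]

theorem cmp1 : (eW 1 : GG s1 s2) * eV 1 < eV 1 * eW 1 := by
  rw [GG.lt_iff]
  simp [eW, eV]

theorem cmp2 (h2 : s2 r = -√2) :
    (eV (1 + r) : GG s1 s2) * eW (1 + r / 2) < eW (1 + r / 2) * eV (1 + r) := by
  rw [GG.lt_iff]
  simp [eW, eV]
  rw [h2, map_ofNat]
  have h1 := sqrt2_gt
  have h3 := sqrt2_lt
  apply mul_neg_of_neg_of_pos
  · linarith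
  · linarith

theorem no_ext (h1 : s1 r = √2) (h2 : s2 r = -√2) :
    ¬ ∃ (L : Type) (_ : DivisionRing L) (_ : LinearOrder L) (_ : IsStrictOrderedRing L)
        (f : MN (GG s1 s2) →+* L), StrictMono f ∧
          ∀ x : L, 0 < x → ∀ n : ℕ, 0 < n → ∃ y : L, 0 < y ∧ y ^ n = x := by
  rintro ⟨L, _, _, _, f, hf, hroot⟩
  have hpos : ∀ x : GG s1 s2, 0 < f (MN.single x 1) := by
    intro x
    rw [← map_zero f]
    exact hf (MN.single_pos x)
  have hmul : ∀ x y : GG s1 s2, f (MN.single x 1) * f (MN.single y 1) =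
      f (MN.single (x * y) 1) := by
    intro x y
    rw [← map_mul, MN.single_mul_single, mul_one]
  obtain ⟨x, hx0, hx⟩ := hroot (f (MN.single (eg r h1 h2) 1)) (hpos _) 2 two_pos
  rw [pow_two] at hx
  refine obstruction (g := f (MN.single (eg r h1 h2) 1)) (s := f (MN.single (eS r h1) 1))
    (v := f (MN.single (eV 1) 1)) (v' := f (MN.single (eW 1) 1))
    (u := f (MN.single (eV (1 + r)) 1)) (u' := f (MN.single (eW (1 + r / 2)) 1))
    (hpos _) (hpos _) (hpos _) (hpos _) (hpos _) ?_ ?_ ?_ ?_ ?_ ?_ ?_ x hx0 hx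
  · rw [hmul, hmul, rel1]
  · rw [hmul, hmul, hmul, rel2]
  · rw [hmul, hmul, hmul, rel2']
  · rw [hmul, hmul, hmul, hmul, hmul, rel3]
  · rw [hmul, hmul, hmul, hmul, hmul, rel3']
  · rw [hmul, hmul]
    exact hf (MN.single_lt _ _ cmp1)
  · rw [hmul, hmul]
    exact hf (MN.single_lt _ _ (cmp2 r h2))

end elements

theorem final : ¬ (∀ (K : Type) [DivisionRing K] [LinearOrder K] [IsStrictOrderedRing K],
      ∃ (L : Type) (_ : DivisionRing L) (_ : LinearOrder L) (_ : IsStrictOrderedRing L)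
        (f : K →+* L), StrictMono f ∧
          ∀ x : L, 0 < x → ∀ n : ℕ, 0 < n → ∃ y : L, 0 < y ∧ y ^ n = x) := by
  intro H
  have hirr : Irreducible (Polynomial.X ^ 2 - Polynomial.C 2 : Polynomial ℚ) := by
    apply X_pow_sub_C_irreducible_of_prime Nat.prime_two
    intro b hb
    have h1 : (b : ℝ) ^ 2 = 2 := by exact_mod_cast hb
    have h2 : |(b : ℝ)| = √2 := by rw [← h1, Real.sqrt_sq_eq_abs]
    apply irrational_sqrt_two
    exact ⟨|b|, by rw [Rat.cast_abs, h2]⟩
  have : Fact (Irreducible (Polynomial.X ^ 2 - Polynomial.C 2 : Polynomial ℚ)) := ⟨hirr⟩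
  let s1 : AdjoinRoot (Polynomial.X ^ 2 - Polynomial.C 2 : Polynomial ℚ) →+* ℝ :=
    AdjoinRoot.lift (algebraMap ℚ ℝ) (√2) (by
      simp [Polynomial.eval₂_sub, Polynomial.eval₂_pow])
  let s2 : AdjoinRoot (Polynomial.X ^ 2 - Polynomial.C 2 : Polynomial ℚ) →+* ℝ :=
    AdjoinRoot.lift (algebraMap ℚ ℝ) (-√2) (by
      simp [Polynomial.eval₂_sub, Polynomial.eval₂_pow])
  have h1 : s1 (AdjoinRoot.root _) = √2 := by simp [s1]
  have h2 : s2 (AdjoinRoot.root _) = -√2 := by simp [s2]
  have : CharZero (AdjoinRoot (Polynomial.X ^ 2 - Polynomial.C 2 : Polynomial ℚ)) :=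
    charZero_of_injective_ringHom (AdjoinRoot.of _).injective
  exact no_ext (s1 := s1) (s2 := s2) (AdjoinRoot.root _) h1 h2 (H (MN (GG s1 s2)))

end Pool.Agent.H979R3
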